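import Pool.Agent.MP_8be872_ag.H63.SpecC

/-! Module P1: nonsingularity at infinity. -/

namespace Pool.Agent.MP_8be872_ag.H9

open Finset H38 H56 H63 MvPolynomial
open scoped Matrix

/-- independent columns extend to an invertible matrix. -/
theorem extA {n : Type} [Fintype n] [DecidableEq n] (s : n → Prop) (A : Matrix n n ℂ)
    (h : ∀ z : n → ℂ, (∀ q, ¬ s q → z q = 0) → A *ᵥ z = 0 → z = 0) :
    ∃ g g' : Matrix n n ℂ, g' * g = 1 ∧ ∀ p q, s q → g p q = A p q := by
  let W : Submodule ℂ (n → ℂ) := Submodule.pi {q | ¬ s q} fun _ => ⊥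
  let f : W →ₗ[ℂ] (n → ℂ) := A.mulVecLin ∘ₗ W.subtype
  have hf : Function.Injective f := by
    rw [injective_iff_map_eq_zero]
    exact fun z hz => Subtype.ext (h z.1 (fun q hq => z.2 q hq) hz)
  obtain ⟨g, hg⟩ := Submodule.exists_linearEquiv_restrict_eq (LinearEquiv.ofInjective f hf)
  refine ⟨LinearMap.toMatrix' g.toLinearMap, LinearMap.toMatrix' g.symm.toLinearMap, ?_,
    fun p q hq => ?_⟩
  · rw [← LinearMap.toMatrix'_comp]
    simp
  · have h1 : (Pi.single q 1 : n → ℂ) ∈ W := fun r hr =>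
      Pi.single_eq_of_ne (fun e : r = q => hr (e ▸ hq)) _
    have h2 : A *ᵥ Pi.single q 1 = g (Pi.single q 1) := hg ⟨_, h1⟩
    rw [LinearMap.toMatrix'_apply, LinearEquiv.coe_coe, ← h2]
    simp

/-- the graded version. -/
theorem extB {n C : Type} [Fintype n] [DecidableEq n] [Fintype C] [DecidableEq C] (cl : n → C)
    (s : n → Prop) (A : Matrix n n ℂ) (hA : ∀ p q, s q → cl p ≠ cl q → A p q = 0)
    (h : ∀ z : n → ℂ, (∀ q, ¬ s q → z q = 0) → A *ᵥ z = 0 → z = 0) :
    ∃ g g' : Matrix n n ℂ, g' * g = 1 ∧ (∀ p q, cl p ≠ cl q → g p q = 0 ∧ g' p q = 0) ∧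
      ∀ p q, s q → g p q = A p q := by
  have h1 : ∀ c, ∃ g g' : Matrix {p // cl p = c} {p // cl p = c} ℂ, g' * g = 1 ∧
      ∀ p q : {p // cl p = c}, s q.1 → g p q = A p.1 q.1 := by
    intro c
    refine extA (n := {p // cl p = c}) (fun q => s q.1) (A.submatrix Subtype.val Subtype.val)
      fun z hz h0 => ?_
    let z' : n → ℂ := fun q => if hq : cl q = c then z ⟨q, hq⟩ else 0
    have e : ∀ q : {p // cl p = c}, z' q.1 = z q := fun q => dif_pos q.2
    have h2 : z' = 0 := by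
      refine h z' (fun q hq => ?_) (funext fun p => ?_)
      · by_cases hc : cl q = c
        · exact (e ⟨q, hc⟩).trans (hz _ hq)
        · exact dif_neg hc
      · change ∑ q, A p q * z' q = 0
        rw [← Fintype.sum_subtype_add_sum_subtype (fun q => cl q = c)]
        rw [Finset.sum_eq_zero (s := univ) (f := fun q : {q // ¬ cl q = c} => A p q.1 * z' q.1)
          fun q _ => by rw [show z' q.1 = 0 from dif_neg q.2, mul_zero], add_zero]
        simp only [e]
        by_cases hp : cl p = c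
        · exact congrFun h0 ⟨p, hp⟩
        · refine Finset.sum_eq_zero fun q _ => ?_
          by_cases hq : s q.1
          · rw [hA p q.1 hq (by rw [q.2]; exact hp), zero_mul]
          · rw [hz q hq, mul_zero]
    exact funext fun q => (e q).symm.trans (congrFun h2 q.1)
  choose G G' hG hG' using h1
  let e := Equiv.sigmaFiberEquiv cl
  refine ⟨(Matrix.blockDiagonal' G).submatrix e.symm e.symm,
    (Matrix.blockDiagonal' G').submatrix e.symm e.symm, ?_, fun p q hpq => ?_, fun p q hq => ?_⟩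
  · rw [Matrix.submatrix_mul_equiv, ← Matrix.blockDiagonal'_mul]
    simp only [hG]
    rw [show (fun c => (1 : Matrix {p // cl p = c} {p // cl p = c} ℂ)) = 1 from rfl,
      Matrix.blockDiagonal'_one, Matrix.submatrix_one_equiv]
  · exact ⟨Matrix.blockDiagonal'_apply_ne G ⟨p, rfl⟩ ⟨q, rfl⟩ hpq,
      Matrix.blockDiagonal'_apply_ne G' ⟨p, rfl⟩ ⟨q, rfl⟩ hpq⟩
  · by_cases hpq : cl p = cl q
    · have e1 : e.symm p = ⟨cl q, ⟨p, hpq⟩⟩ := (Equiv.symm_apply_eq _).2 rfl
      rw [Matrix.submatrix_apply, e1]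
      exact (Matrix.blockDiagonal'_apply_eq G (cl q) ⟨p, hpq⟩ ⟨q, rfl⟩).trans (hG' _ _ _ hq)
    · rw [hA p q hq hpq]
      exact Matrix.blockDiagonal'_apply_ne G ⟨p, rfl⟩ ⟨q, rfl⟩ hpq

variable {Q : Quiv} {w v D : Fin Q.n → ℕ}

open Classical in
theorem colP_cons {N A : Type} [Fintype N] [CommRing A] (at' : Fin Q.n → N → Prop)
    (x : Arr Q → Matrix N N A) (y₀ : N → A) (s : Arr Q × Fin Q.n) (l : List (Arr Q × Fin Q.n))
    (p : N) : colP at' x y₀ (s :: l) p =
      if at' s.2 p then (x s.1 *ᵥ colP at' x y₀ l) p else 0 := rfl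

theorem colP_map {N A A' : Type} [Fintype N] [CommRing A] [CommRing A'] (h : A →+* A')
    (at' : Fin Q.n → N → Prop) (x : Arr Q → Matrix N N A) (y₀ : N → A)
    (l : List (Arr Q × Fin Q.n)) (p : N) :
    h (colP at' x y₀ l p) = colP at' (fun ε => (x ε).map h) (fun p => h (y₀ p)) l p := by
  induction l generalizing p with
  | nil => rfl
  | cons s l ih =>
    rw [colP_cons, colP_cons]
    split_ifs
    · simp only [Matrix.mulVec, dotProduct, map_sum, map_mul, ih, Matrix.map_apply]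
    · exact map_zero h

theorem colP_proj {N U : Type} [Fintype N] [Fintype U] (π : Matrix U N ℂ)
    {at' : Fin Q.n → N → Prop} {at'' : Fin Q.n → U → Prop}
    (hπ : ∀ u p j, π u p ≠ 0 → (at' j p ↔ at'' j u)) {x : Arr Q → Matrix N N ℂ}
    {X : Arr Q → Matrix U U ℂ} (hX : ∀ ε, X ε * π = π * x ε) (y₀ : N → ℂ)
    (l : List (Arr Q × Fin Q.n)) : π *ᵥ colP at' x y₀ l = colP at'' X (π *ᵥ y₀) l := by
  induction l with
  | nil => rfl
  | cons s l ih =>
    funext u
    rw [colP_cons, ← ih, Matrix.mulVec_mulVec, hX, ← Matrix.mulVec_mulVec]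
    change ∑ p, π u p * colP at' x y₀ (s :: l) p = _
    split_ifs with h
    · refine Finset.sum_congr rfl fun p _ => ?_
      by_cases h0 : π u p = 0
      · simp [h0]
      · rw [colP_cons, if_pos ((hπ u p _ h0).2 h)]
    · refine Finset.sum_eq_zero fun p _ => ?_
      by_cases h0 : π u p = 0
      · simp [h0]
      · rw [colP_cons, if_neg (fun h' => h ((hπ u p _ h0).1 h')), mul_zero]

/-- The class of a basis vector. -/
def cl (p : Nb Q w v D) : Fin Q.n × Bool := (vx p, decide (blk p < 2))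

theorem cl_iff {p q : Nb Q w v D} : cl p = cl q ↔ vx p = vx q ∧ (blk p < 2 ↔ blk q < 2) := by
  simp [cl]

theorem blk_le (p : Nb Q w v D) : blk p ≤ 2 := by
  rcases p with p | p | p <;> simp [blk]

theorem arrow_congr {ε : Arr Q} {p q p' q' : Nb Q w v D} (h : arrow (.inl ε) p q)
    (hp : cl p = cl p') (hq : cl q = cl q') : arrow (.inl ε) p' q' := by
  rw [cl_iff] at hp hq
  have h1 := blk_le p
  have h2 := blk_le q
  have h3 := blk_le p'
  have h4 := blk_le q'
  rcases ε with ⟨_ | e, s⟩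
  · simp only [arrow] at h ⊢
    refine ⟨hp.1.symm.trans (h.1.trans hq.1), ?_⟩
    have h5 := h.2
    have h6 := hp.2
    have h7 := hq.2
    split_ifs at h5 ⊢ <;> omega
  · simp only [arrow] at h ⊢
    exact ⟨hp.2.1 h.1, hq.2.1 h.2.1, hp.1.symm.trans h.2.2.1, hq.1.symm.trans h.2.2.2⟩

theorem allowed_of {ε : Arr Q} {u u' : Bas Q v ⊕ Bas Q w}
    (h : arrow (D := D) (.inl ε) (.inr u) (.inr u')) : allowed Q w v 0 (ε, u, u') := by
  rcases ε with ⟨_ | e, _ | _⟩ <;> rcases u with a | a <;> rcases u' with b | b <;>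
    simp_all [arrow, allowed, blk, vx]

theorem mul_ne {l m n : Type} [Fintype m] {A : Matrix l m ℂ} {B : Matrix m n ℂ} {p : l} {q : n}
    (h : (A * B) p q ≠ 0) : ∃ r, A p r ≠ 0 ∧ B r q ≠ 0 := by
  rw [Matrix.mul_apply] at h
  obtain ⟨r, -, hr⟩ := Finset.exists_ne_zero_of_sum_ne_zero h
  exact ⟨r, left_ne_zero_of_mul hr, right_ne_zero_of_mul hr⟩

variable {J : Type} {y : Ix Q w v D J → ℂ}

theorem pt_odd (τ : Arr Q ⊕ Bool) : pt y (.inr τ) = 0 := by
  funext p q
  simp [pt, msk, gg]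

theorem pt_shape {k : Kd Q} {p q : Nb Q w v D} (h : pt y k p q ≠ 0) : shape rad k p q := by
  by_contra h'
  exact h (if_neg h')

theorem al_shape {p q : Nb Q w v D} (h : pt y ka p q ≠ 0) : cl p = cl q ∧ blk q = 0 := by
  obtain ⟨⟨h1, h2, h3⟩, h4⟩ := pt_shape h
  exact ⟨cl_iff.2 ⟨h1, iff_of_true h2 h3⟩, h4⟩

theorem on_eq (hy : OnQ y) (τ : Arr Q ⊕ Bool) {p q : Nb Q w v D} (h : shape rad (.inr τ) p q) :
    Phi Q (pt y) (.inr τ) p q = 0 := by
  have h1 := congrFun (congrFun (hy τ) p) q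
  unfold msk at h1
  rwa [if_pos h] at h1

theorem comm_T (hy : OnQ y) (ε : Arr Q) (p q : Nb Q w v D) (hq : blk q = 0) :
    (pt y (kx ε) * pt y ka) p q = (pt y ka * pt y (kx ε)) p q := by
  by_cases h : arrow (.inl ε) p q
  · have h1 := on_eq hy (.inl ε) ⟨h, hq⟩
    simp only [Phi, pt_odd, zero_mul, sub_zero, Matrix.sub_apply] at h1
    exact sub_eq_zero.1 h1
  · have h1 : (pt y (kx ε) * pt y ka) p q = 0 := by
      by_contra h0
      obtain ⟨r, h2, h3⟩ := mul_ne h0
      exact h (arrow_congr (pt_shape h2).1 rfl (al_shape h3).1)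
    have h2 : (pt y ka * pt y (kx ε)) p q = 0 := by
      by_contra h0
      obtain ⟨r, h2, h3⟩ := mul_ne h0
      exact h (arrow_congr (pt_shape h3).1 (al_shape h2).1.symm rfl)
    rw [h1, h2]

/-- The moment map of a family of matrices. -/
noncomputable def mu {N : Type} [Fintype N] (x : Arr Q → Matrix N N ℂ) : Matrix N N ℂ :=
  ∑ o, (x (o, true) * x (o, false) - x (o, false) * x (o, true))

theorem mu_zero (hy : OnQ y) (p q : Nb Q w v D) (h : vx p = vx q) (hp : blk p < 2)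
    (hq : blk q < 2) : mu (fun ε => pt y (kx ε)) p q = 0 := by
  by_cases h0 : blk q = 0 → blk p = 0
  · have h1 := on_eq hy (.inr false) ⟨⟨h, hp, hq⟩, h0⟩
    simp only [Phi, pt_odd, zero_mul, sub_zero] at h1
    exact h1
  · have h1 : ∀ ε ε', (pt y (kx ε) * pt y (kx ε')) p q = 0 := fun ε ε' => by
      by_contra h2
      obtain ⟨r, h3, h4⟩ := mul_ne h2
      exact h0 fun h5 => (pt_shape h3).2 ((pt_shape h4).2 h5)
    simp only [mu, Matrix.sum_apply, Matrix.sub_apply, h1, sub_zero, Finset.sum_const_zero]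

/-- A graded change of basis that straightens `α`. -/
structure Str (y : Ix Q w v D J → ℂ) (g g' : Matrix (Nb Q w v D) (Nb Q w v D) ℂ) : Prop where
  inv : g' * g = 1
  gr : ∀ p q, cl p ≠ cl q → g p q = 0 ∧ g' p q = 0
  onT : ∀ p τ, g p (.inl τ) = pt y ka p (.inl τ)
  onW : ∀ p b, g p (.inr (.inr b)) = (1 : Matrix (Nb Q w v D) (Nb Q w v D) ℂ) p (.inr (.inr b))

theorem al_U (p : Nb Q w v D) (u : Bas Q v ⊕ Bas Q w) : pt y ka p (.inr u) = 0 := by
  by_contra h
  have := (al_shape h).2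
  rcases u with a | a <;> simp [blk] at this

theorem al_W (b : Bas Q w) (q : Nb Q w v D) : pt y ka (.inr (.inr b)) q = 0 := by
  by_contra h
  have := (pt_shape h).1.2.1
  simp [blk] at this

theorem exists_str (h : ∀ z : Nb Q w v D → ℂ, (∀ p, blk p ≠ 0 → z p = 0) →
    pt y ka *ᵥ z = 0 → z = 0) : ∃ g g', Str y g g' := by
  obtain ⟨g, g', h1, h2, h3⟩ := extB cl (fun p => blk p ≠ 1)
    (pt y ka + Matrix.diagonal fun p => if blk p = 2 then 1 else 0)
    (fun p q _ hpq => by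
      have e1 : pt y ka p q = 0 := by
        by_contra h0
        exact hpq (al_shape h0).1
      rw [Matrix.add_apply, e1, Matrix.diagonal_apply_ne _ (fun e => hpq (congrArg cl e)), add_zero])
    fun z hz h0 => by
      have e1 : ∀ b, z (.inr (.inr b)) = 0 := fun b => by
        have := congrFun h0 (.inr (.inr b))
        rw [Matrix.add_mulVec, Pi.add_apply, Matrix.mulVec_diagonal] at this
        simpa [Matrix.mulVec, dotProduct, al_W, blk] using this
      have e2 : (Matrix.diagonal fun p => if blk p = 2 then 1 else 0) *ᵥ z = 0 := funext fun p => by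
        rw [Matrix.mulVec_diagonal]
        rcases p with p | p | p <;> simp [blk, e1]
      rw [Matrix.add_mulVec, e2, add_zero] at h0
      refine h z (fun p hp => ?_) h0
      rcases p with p | p | p
      · simp [blk] at hp
      · exact hz _ (by simp [blk])
      · exact e1 p
  refine ⟨g, g', h1, h2, fun p τ => ?_, fun p b => ?_⟩
  · rw [h3 p _ (by simp [blk]), Matrix.add_apply, Matrix.diagonal_apply]
    split_ifs with e e'
    · simp [e, blk] at e'
    · exact add_zero _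
    · exact add_zero _
  · rw [h3 p _ (by simp [blk]), Matrix.add_apply, al_U, zero_add, Matrix.diagonal_apply,
      Matrix.one_apply]
    split_ifs with e e'
    · rfl
    · simp [e, blk] at e'
    · rfl

variable {g g' : Matrix (Nb Q w v D) (Nb Q w v D) ℂ}

/-- The projection to the fibre at infinity. -/
def pr (g' : Matrix (Nb Q w v D) (Nb Q w v D) ℂ) : Matrix (Bas Q v ⊕ Bas Q w) (Nb Q w v D) ℂ :=
  g'.submatrix Sum.inr id

/-- The section of the projection. -/
def sc (g : Matrix (Nb Q w v D) (Nb Q w v D) ℂ) : Matrix (Nb Q w v D) (Bas Q v ⊕ Bas Q w) ℂ :=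
  g.submatrix id Sum.inr

/-- The representation on the fibre at infinity. -/
noncomputable def xb (y : Ix Q w v D J → ℂ) (g g' : Matrix (Nb Q w v D) (Nb Q w v D) ℂ)
    (ε : Arr Q) : Matrix (Bas Q v ⊕ Bas Q w) (Bas Q v ⊕ Bas Q w) ℂ :=
  pr g' * pt y (kx ε) * sc g

/-- Its coordinates. -/
noncomputable def xp (y : Ix Q w v D J → ℂ) (g g' : Matrix (Nb Q w v D) (Nb Q w v D) ℂ) :
    Option (Co Q w v) → ℂ := fun c => c.elim 0 fun c => xb y g g' c.1 c.2.1 c.2.2

namespace Str

theorem ga (h : Str y g g') (p : Nb Q w v D) (τ : Bas Q D) :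
    (g' * pt y ka) p (.inl τ) = (1 : Matrix (Nb Q w v D) (Nb Q w v D) ℂ) p (.inl τ) := by
  rw [← h.inv]
  simp only [Matrix.mul_apply, h.onT]

theorem pa (h : Str y g g') : pr g' * pt y ka = 0 := by
  funext u q
  rcases q with τ | u'
  · exact (h.ga (.inr u) τ).trans (Matrix.one_apply_ne Sum.inr_ne_inl)
  · simp [Matrix.mul_apply, al_U]

theorem ps (h : Str y g g') : pr g' * sc g = 1 := by
  funext u u'
  have := congrFun (congrFun h.inv (.inr u)) (.inr u')
  refine Eq.trans this ?_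
  simp [Matrix.one_apply]

theorem sp (h : Str y g g') : sc g * pr g' = 1 - pt y ka * g' := by
  rw [← mul_eq_one_comm.1 h.inv]
  funext p q
  simp [Matrix.mul_apply, Fintype.sum_sum_type, h.onT, al_U, pr, sc]

theorem gW (h : Str y g g') (p : Nb Q w v D) (b : Bas Q w) :
    g' p (.inr (.inr b)) = (1 : Matrix (Nb Q w v D) (Nb Q w v D) ℂ) p (.inr (.inr b)) := by
  rw [← h.inv]
  simp only [Matrix.mul_apply, h.onW]
  rw [← Matrix.mul_apply, Matrix.mul_one]

theorem pW (h : Str y g g') (b : Bas Q w) :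
    pr g' *ᵥ Pi.single (.inr (.inr b)) 1 = Pi.single (.inr b) 1 := by
  funext u
  simp [pr, h.gW, Matrix.one_apply, Pi.single_apply]

theorem sW (h : Str y g g') (b : Bas Q w) :
    sc g *ᵥ Pi.single (.inr b) 1 = Pi.single (.inr (.inr b)) 1 := by
  funext p
  simp [sc, h.onW, Matrix.one_apply, Pi.single_apply]

theorem pcl (h : Str y g g') {u : Bas Q v ⊕ Bas Q w} {p : Nb Q w v D} (h0 : pr g' u p ≠ 0) :
    cl p = cl (.inr u : Nb Q w v D) := by
  by_contra h1
  exact h0 (h.gr _ _ (Ne.symm h1)).2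

theorem scl (h : Str y g g') {u : Bas Q v ⊕ Bas Q w} {p : Nb Q w v D} (h0 : sc g p u ≠ 0) :
    cl p = cl (.inr u : Nb Q w v D) := by
  by_contra h1
  exact h0 (h.gr _ _ h1).1

theorem xpr (h : Str y g g') (hy : OnQ y) (ε : Arr Q) :
    xb y g g' ε * pr g' = pr g' * pt y (kx ε) := by
  have h1 : pr g' * (pt y (kx ε) * pt y ka) = 0 := by
    funext u q
    rcases q with τ | u'
    · have : (pr g' * (pt y ka * pt y (kx ε))) u (.inl τ) = 0 := by
        rw [← Matrix.mul_assoc, h.pa, Matrix.zero_mul, Matrix.zero_apply]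
      refine Eq.trans ?_ this
      rw [Matrix.mul_apply, Matrix.mul_apply]
      exact Finset.sum_congr rfl fun r _ => by rw [comm_T hy ε r _ rfl]
    · simp [Matrix.mul_apply, al_U]
  rw [xb, Matrix.mul_assoc, h.sp, Matrix.mul_sub, Matrix.mul_one, ← Matrix.mul_assoc,
    Matrix.mul_assoc (pr g'), h1, Matrix.zero_mul, sub_zero]

theorem xal (h : Str y g g') {ε : Arr Q} {u u' : Bas Q v ⊕ Bas Q w}
    (h0 : ¬ allowed Q w v 0 (ε, u, u')) : xb y g g' ε u u' = 0 := by
  by_contra h1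
  obtain ⟨q, h2, h3⟩ := mul_ne h1
  obtain ⟨p, h4, h5⟩ := mul_ne h2
  exact h0 (allowed_of (arrow_congr (pt_shape h5).1 (h.pcl h4) (h.scl h3)))

theorem onZ (h : Str y g g') (hy : OnQ y) : OnZ Q w v 0 (xp y g g') := by
  refine ⟨fun c hc => h.xal hc, fun r hr => ?_⟩
  have e1 : eval (xp y g g') (mom Q w v r) = mu (xb y g g') (.inl r.1) (.inl r.2) := by
    simp only [mom, mu, Matrix.sum_apply, Matrix.sub_apply, Matrix.mul_apply, map_sum, map_sub,
      map_mul, mat, eval_X]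
    rfl
  have e2 : ∀ ε ε', xb y g g' ε * xb y g g' ε' = pr g' * (pt y (kx ε) * pt y (kx ε')) * sc g :=
    fun ε ε' => by
      rw [xb.eq_1 y g g' ε', ← Matrix.mul_assoc, ← Matrix.mul_assoc, h.xpr hy,
        Matrix.mul_assoc (pr g')]
  have e3 : mu (xb y g g') = pr g' * mu (fun ε => pt y (kx ε)) * sc g := by
    simp only [mu, e2, Matrix.mul_sum, Matrix.sum_mul, Matrix.mul_sub, Matrix.sub_mul]
  rw [e1, e3]
  by_contra h1
  obtain ⟨q, h2, h3⟩ := mul_ne h1
  obtain ⟨p, h4, h5⟩ := mul_ne h2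
  have a1 := cl_iff.1 (h.pcl h4)
  have a2 := cl_iff.1 (h.scl h3)
  exact h5 (mu_zero hy p q (a1.1.trans (Eq.trans hr a2.1.symm)) (a1.2.2 (by simp [blk]))
    (a2.2.2 (by simp [blk])))

theorem stab (h : Str y g g') (hy : OnQ y) :
    (∀ S : Submodule ℂ (Nb Q w v D → ℂ), (∀ z, pt y ka *ᵥ z ∈ S) →
      (∀ b, Pi.single (.inr (.inr b)) 1 ∈ S) → (∀ ε, ∀ z ∈ S, pt y (kx ε) *ᵥ z ∈ S) → S = ⊤) ↔
    Stable Q w v (xp y g g') := by
  let R : (Bas Q v ⊕ Bas Q w → ℂ) →ₗ[ℂ] (Bas Q v → ℂ) := LinearMap.funLeft ℂ ℂ Sum.inl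
  have dec : ∀ u : Bas Q v ⊕ Bas Q w → ℂ,
      u = Sum.elim (R u) 0 + ∑ b, u (.inr b) • Pi.single (.inr b) 1 := fun u => by
    funext a
    rcases a with a | a <;> simp [R, LinearMap.funLeft_apply, Finset.sum_apply, Pi.single_apply]
  have col : ∀ ε b, R (xb y g g' ε *ᵥ Pi.single (.inr b) 1) =
      fun a => xp y g g' (some (ε, .inl a, .inr b)) := fun ε b => by
    funext a
    simp [R, LinearMap.funLeft_apply, xp]
  have stp : ∀ ε z, R (xb y g g' ε *ᵥ Sum.elim z 0) =
      (Matrix.of fun a b => xp y g g' (some (ε, .inl a, .inl b))) *ᵥ z := fun ε z => by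
    funext a
    simp [R, LinearMap.funLeft_apply, xp, Matrix.mulVec, dotProduct]
  constructor
  · intro hS S h1 h2
    have h3 := hS (S.comap (R ∘ₗ (pr g').mulVecLin)) (fun z => ?_) (fun b => ?_) fun ε z hz => ?_
    · rw [eq_top_iff]
      intro z _
      have h4 : R (pr g' *ᵥ (sc g *ᵥ Sum.elim z 0)) ∈ S :=
        show sc g *ᵥ Sum.elim z 0 ∈ S.comap (R ∘ₗ (pr g').mulVecLin) from h3 ▸ Submodule.mem_top
      rwa [Matrix.mulVec_mulVec, h.ps, Matrix.one_mulVec] at h4
    · change R (pr g' *ᵥ (pt y ka *ᵥ z)) ∈ S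
      rw [Matrix.mulVec_mulVec, h.pa, Matrix.zero_mulVec, map_zero]
      exact S.zero_mem
    · change R (pr g' *ᵥ _) ∈ S
      rw [h.pW, show R (Pi.single (.inr b) 1) = 0 from funext fun a => by
        simp [R, LinearMap.funLeft_apply]]
      exact S.zero_mem
    · change R (pr g' *ᵥ (pt y (kx ε) *ᵥ z)) ∈ S
      have hz' : R (pr g' *ᵥ z) ∈ S := hz
      rw [Matrix.mulVec_mulVec, ← h.xpr hy, ← Matrix.mulVec_mulVec, dec (pr g' *ᵥ z),
        Matrix.mulVec_add, Matrix.mulVec_sum, map_add, map_sum, stp]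
      refine S.add_mem ?_ (S.sum_mem fun b _ => ?_)
      · rcases ε with ⟨_ | e, s⟩
        · rw [show (Matrix.of fun a b => xp y g g' (some ((none, s), .inl a, .inl b))) = 0 from
            funext fun a => funext fun b => h.xal (by cases s <;> exact id), Matrix.zero_mulVec]
          exact S.zero_mem
        · exact h2 e s _ hz'
      · rw [Matrix.mulVec_smul, map_smul, col]
        refine S.smul_mem _ ?_
        by_cases e : ε = (none, true)
        · exact e ▸ h1 b
        · rw [show (fun a => xp y g g' (some (ε, .inl a, .inr b))) = 0 from funext fun a =>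
            h.xal (by rcases ε with ⟨_ | e', _ | _⟩ <;> first | exact id | exact absurd rfl e)]
          exact S.zero_mem
  · intro hS S h1 h2 h3
    let L : (Bas Q v → ℂ) →ₗ[ℂ] (Nb Q w v D → ℂ) := ((sc g).submatrix id Sum.inl).mulVecLin
    have a0 : ∀ z, L z = sc g *ᵥ Sum.elim z 0 := fun z => by
      funext p
      simp [L, Matrix.mulVec, dotProduct]
    have a1 : ∀ u, sc g *ᵥ u ∈ S ↔ R u ∈ S.comap L := fun u => by
      rw [Submodule.mem_comap, a0]
      conv_lhs => rw [dec u, Matrix.mulVec_add, Matrix.mulVec_sum]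
      refine S.add_mem_iff_left (S.sum_mem fun b _ => ?_)
      rw [Matrix.mulVec_smul, h.sW]
      exact S.smul_mem _ (h2 b)
    have a2 : ∀ z, sc g *ᵥ (pr g' *ᵥ z) ∈ S ↔ z ∈ S := fun z => by
      rw [Matrix.mulVec_mulVec, h.sp, Matrix.sub_mulVec, Matrix.one_mulVec, ← Matrix.mulVec_mulVec]
      exact S.sub_mem_iff_left (h1 _)
    have a3 : ∀ ε u, sc g *ᵥ u ∈ S → R (xb y g g' ε *ᵥ u) ∈ S.comap L := fun ε u hu => by
      rw [← a1, xb, ← Matrix.mulVec_mulVec, ← Matrix.mulVec_mulVec, a2]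
      exact h3 ε _ hu
    have h4 := hS (S.comap L) (fun b => ?_) fun e s z hz => ?_
    · rw [eq_top_iff]
      intro z _
      rw [← a2, a1, h4]
      exact Submodule.mem_top
    · rw [← col]
      exact a3 _ _ (by rw [h.sW]; exact h2 b)
    · rw [← stp]
      exact a3 _ _ (by rw [← a0]; exact hz)

theorem det (h : Str y g g') (hy : OnQ y) (P : Bas Q v → Pth Q w) :
    g'.det * (Fmat P (pt y)).det = eval (xp y g g') (emb (Fold P)) := by
  let φ : Pol0 (Arr Q) (Bas Q v) (Bas Q w) →+* ℂ := (eval (xp y g g')).comp emb.toRingHom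
  have e0 : (fun ε => (mat0 ε).map φ) = xb y g g' := by
    funext ε u u'
    simp [φ, mat0, emb, xp]
  have e1 : (g' * Fmat P (pt y)).toBlocks₁₁ = 1 := by
    funext τ τ'
    exact (h.ga (.inl τ) τ').trans (by simp [Matrix.one_apply])
  have e2 : (g' * Fmat P (pt y)).toBlocks₂₁ = 0 := by
    funext u τ
    exact (h.ga (.inr u) τ).trans (Matrix.one_apply_ne Sum.inr_ne_inl)
  have e3 : ∀ u b, (g' * Fmat P (pt y)) (.inr u) (.inr (.inr b)) =
      (1 : Matrix (Bas Q v ⊕ Bas Q w) (Bas Q v ⊕ Bas Q w) ℂ) u (.inr b) := fun u b => by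
    simp [Matrix.mul_apply, Fmat, h.gW, Matrix.one_apply]
  have e4 : (g' * Fmat P (pt y)).toBlocks₂₂.toBlocks₁₂ = 0 := by
    funext a b
    exact (e3 (.inl a) b).trans (Matrix.one_apply_ne Sum.inl_ne_inr)
  have e5 : (g' * Fmat P (pt y)).toBlocks₂₂.toBlocks₂₂ = 1 := by
    funext a b
    exact (e3 (.inr a) b).trans (by simp [Matrix.one_apply])
  rw [← Matrix.det_mul, ← Matrix.fromBlocks_toBlocks (g' * Fmat P (pt y)), e1, e2,
    Matrix.det_fromBlocks_zero₂₁, Matrix.det_one, one_mul,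
    ← Matrix.fromBlocks_toBlocks (g' * Fmat P (pt y)).toBlocks₂₂, e4, e5,
    Matrix.det_fromBlocks_zero₁₂, Matrix.det_one, mul_one]
  change _ = φ (Fold P)
  rw [Fold, RingHom.map_det]
  congr 1
  funext a b
  have e6 := colP_proj (pr g') (at' := fun j p => blk p < 2 ∧ vx p = j)
    (at'' := fun j (p : Bas Q v ⊕ Bas Q w) => ∃ a, p = .inl a ∧ a.1 = j)
    (fun u p j h0 => by
      have := cl_iff.1 (h.pcl h0)
      rw [this.1, this.2]
      rcases u with a | a <;> simp [blk, vx]) (h.xpr hy) (Pi.single (.inr (.inr (P b).1)) 1) (P b).2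
  rw [h.pW] at e6
  refine (congrFun e6 (.inl a)).trans ?_
  rw [RingHom.mapMatrix_apply, Matrix.map_apply, Matrix.of_apply, colP_map, e0]
  congr 1
  funext p
  simp [Pi.single_apply, apply_ite φ]

end Str

theorem p1 : DSqStmt → P1Stmt := by
  intro _ Q w v D J P φ hP y hy
  refine and_congr_right fun hH => ?_
  obtain ⟨g, g', h⟩ := exists_str (y := y) fun z hz h0 => hH 0 z hz (by rw [zero_smul]; exact h0)
  have h1 : g'.det ≠ 0 := left_ne_zero_of_mul (b := g.det) (by
    rw [← Matrix.det_mul, h.inv, Matrix.det_one]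
    exact one_ne_zero)
  rw [h.stab hy, ← hP.2.2.2.2.2.2 _ (h.onZ hy), ← h.det hy P]
  simp [h1]

end Pool.Agent.MP_8be872_ag.H9
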